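import Pool.Agent.Results.MP_d4663a_an.NonCnedCantorSubset

/-!
# Every closed QCH-removable set which is not CNED contains such a Cantor set

The question whether QCH-removable closed sets are CNED is reduced to Cantor sets (totally
disconnected compact sets), in every dimension `n ≥ 2`.

How the definitions match the problem file: `IsCNED` and the notions it uses are those of the
problem file, with curves parametrized by `[0, 1]`. `QuasiconformalOn f U` is the metric
definition of quasiconformality of a homeomorphism `f` on the open set `U`: the linear dilatation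
`limsup max_{|y - x| = r} |f y - f x| / min_{|z - x| = r} |f z - f x|`, `r → 0`, is bounded on `U`.
-/

set_option autoImplicit false

open MeasureTheory Set Filter Topology Metric
open scoped ENNReal

namespace Pool.Agent.Results.MP_f60983_an.CantorReduction

/-- Euclidean `n`-space. -/
abbrev Eucl (n : ℕ) := EuclideanSpace ℝ (Fin n)

/-- The path `γ : [0, 1] → ℝⁿ` is rectifiable: it has finite length. -/
def IsRectifiable {n : ℕ} (γ : ℝ → Eucl n) : Prop := eVariationOn γ (Icc 0 1) ≠ ⊤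

/-- The line integral `∫_γ ρ ds` over a rectifiable path `γ : [0, 1] → ℝⁿ`: the integral of
`ρ ∘ γ_s` over `[0, length of γ]`, where `γ_s` is the parametrization of `γ` by arc length. -/
noncomputable def lineIntegral {n : ℕ} (ρ : Eucl n → ℝ≥0∞) (γ : ℝ → Eucl n) : ℝ≥0∞ :=
  ∫⁻ s in Icc 0 (eVariationOn γ (Icc 0 1)).toReal, ρ (naturalParameterization γ (Icc 0 1) 0 s)

/-- The conformal `n`-modulus of a family `Γ` of paths `[0, 1] → ℝⁿ`: the infimum of `∫ ρⁿ` over
the Borel functions `ρ : ℝⁿ → [0, ∞]` with `∫_γ ρ ds ≥ 1` for all rectifiable `γ` in `Γ`. -/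
noncomputable def modulus {n : ℕ} (Γ : Set (ℝ → Eucl n)) : ℝ≥0∞ :=
  ⨅ (ρ : Eucl n → ℝ≥0∞) (_ : Measurable ρ)
    (_ : ∀ γ ∈ Γ, IsRectifiable γ → 1 ≤ lineIntegral ρ γ), ∫⁻ x, ρ x ^ n

/-- The family `Γ(F₁, F₂; ℝⁿ)` of the paths (functions continuous on `[0, 1]`) from `F₁` to
`F₂`. -/
def joining {n : ℕ} (F₁ F₂ : Set (Eucl n)) : Set (ℝ → Eucl n) :=
  {γ | ContinuousOn γ (Icc 0 1) ∧ γ 0 ∈ F₁ ∧ γ 1 ∈ F₂}

/-- The family `F_σ(E)` of the paths whose trace meets `E` in at most countably many points. -/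
def curvesSigma {n : ℕ} (E : Set (Eucl n)) : Set (ℝ → Eucl n) :=
  {γ | (γ '' Icc 0 1 ∩ E).Countable}

/-- `E` is CNED: for any two disjoint continua (nonempty compact connected sets) `F₁`, `F₂` the
modulus of `Γ(F₁, F₂; ℝⁿ)` equals the modulus of `Γ(F₁, F₂; ℝⁿ) ∩ F_σ(E)`. -/
def IsCNED {n : ℕ} (E : Set (Eucl n)) : Prop :=
  ∀ F₁ F₂ : Set (Eucl n), IsCompact F₁ → IsConnected F₁ → IsCompact F₂ → IsConnected F₂ →
    Disjoint F₁ F₂ → modulus (joining F₁ F₂) = modulus (joining F₁ F₂ ∩ curvesSigma E)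

/-- The homeomorphism `f` of `ℝⁿ` is quasiconformal on the open set `U` (metric definition): there
is a constant `H` such that for all `x ∈ U` and all sufficiently small `r > 0`, the ratio of
`max_{|y - x| = r} |f y - f x|` and `min_{|z - x| = r} |f z - f x|` is at most `H`. -/
def QuasiconformalOn {n : ℕ} (f : Eucl n ≃ₜ Eucl n) (U : Set (Eucl n)) : Prop :=
  ∃ H : ℝ, ∀ x ∈ U, ∀ᶠ r in 𝓝[>] (0 : ℝ), ∀ y z : Eucl n, dist y x = r → dist z x = r →
    dist (f y) (f x) ≤ H * dist (f z) (f x)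

/-- `E` is QCH-removable: every homeomorphism of `ℝⁿ` which is quasiconformal on `ℝⁿ \ E` is
quasiconformal on `ℝⁿ`. -/
def IsQCHRemovable {n : ℕ} (E : Set (Eucl n)) : Prop :=
  ∀ f : Eucl n ≃ₜ Eucl n, QuasiconformalOn f Eᶜ → QuasiconformalOn f univ

/-- `K` is a Cantor set: nonempty, compact, perfect and totally disconnected. -/
def IsCantorSet {n : ℕ} (K : Set (Eucl n)) : Prop :=
  K.Nonempty ∧ IsCompact K ∧ Perfect K ∧ IsTotallyDisconnected K

/-- **Reduction of Q1 to Cantor sets.** For every `n ≥ 2`, every closed set `E ⊆ ℝⁿ` which is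
QCH-removable but not CNED contains a Cantor set which is QCH-removable but not CNED.
Consequently every closed QCH-removable set in `ℝⁿ` is CNED if and only if every QCH-removable
Cantor set in `ℝⁿ` is CNED. -/
theorem result : ∀ n : ℕ, 2 ≤ n →
    (∀ E : Set (Eucl n), IsClosed E → IsQCHRemovable E → ¬ IsCNED E →
      ∃ K ⊆ E, IsCantorSet K ∧ IsQCHRemovable K ∧ ¬ IsCNED K) ∧
    ((∀ E : Set (Eucl n), IsClosed E → IsQCHRemovable E → IsCNED E) ↔
      ∀ K : Set (Eucl n), IsCantorSet K → IsQCHRemovable K → IsCNED K) := by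
  intro n hn
  have main : ∀ E : Set (Eucl n), IsClosed E → IsQCHRemovable E → ¬ IsCNED E →
      ∃ K ⊆ E, IsCantorSet K ∧ IsQCHRemovable K ∧ ¬ IsCNED K := by
    intro E hE hrem hnc
    obtain ⟨K, hKE, h1, h2, h3, h4, h5⟩ :=
      Pool.Agent.Results.MP_d4663a_an.NonCnedCantorSubset.result n hn E hE hnc
    refine ⟨K, hKE, ⟨h1, h2, h3, h4⟩, fun f hf => hrem f ?_, h5⟩
    obtain ⟨H, hH⟩ := hf
    exact ⟨H, fun x hx => hH x fun hxK => hx (hKE hxK)⟩
  refine ⟨main, fun h K hK => h K hK.2.1.isClosed, fun h E hE hrem => ?_⟩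
  by_contra hnc
  obtain ⟨K, -, h1, h2, h3⟩ := main E hE hrem hnc
  exact h3 (h K h1 h2)

end Pool.Agent.Results.MP_f60983_an.CantorReduction
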